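import Pool.Agent.FPP38.Meas

/-!
The lower bound for the one-arm probability at the critical point.
-/

set_option autoImplicit false
set_option linter.deprecated false

open Finset MeasureTheory
open scoped NNReal ENNReal

namespace Pool.Agent.FPP38

section General

variable {V : Type*} [DecidableEq V]

theorem insert_inter_mem {O A' : Finset (Sym2 V)} {e : Sym2 V} (heA : e ∈ A') :
    insert e O ∩ A' = insert e (O ∩ A'.erase e) := by
  ext f
  simp only [mem_inter, mem_insert, mem_erase]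
  constructor
  · rintro ⟨h1 | h1, h2⟩
    · exact Or.inl h1
    · by_cases hf : f = e
      · exact Or.inl hf
      · exact Or.inr ⟨h1, hf, h2⟩
  · rintro (h1 | ⟨h1, h2, h3⟩)
    · exact ⟨Or.inl h1, h1 ▸ heA⟩
    · exact ⟨Or.inr h1, h3⟩

theorem inter_erase_notMem {O A' : Finset (Sym2 V)} {e : Sym2 V} (heO : e ∉ O) :
    O ∩ A' = O ∩ A'.erase e := by
  ext f
  simp only [mem_inter, mem_erase]
  constructor
  · rintro ⟨h1, h2⟩
    exact ⟨h1, fun h => heO (h ▸ h1), h2⟩
  · rintro ⟨h1, _, h3⟩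
    exact ⟨h1, h3⟩

/-- two increasing events depending on disjoint sets of edges -/
theorem Pr_two_le {p : ℝ} (h0 : 0 ≤ p) (h1 : p ≤ 1) (A : Finset (Sym2 V)) :
    ∀ (A1 A2 : Finset (Sym2 V)) (X1 X2 : Finset (Sym2 V) → Prop),
      (∀ O O' : Finset (Sym2 V), O ⊆ O' → X1 O → X1 O') →
      (∀ O O' : Finset (Sym2 V), O ⊆ O' → X2 O → X2 O') → Disjoint A1 A2 →
      Pr p A (fun O => X1 (O ∩ A1) ∧ X2 (O ∩ A2)) ≤ Pr p A1 X1 * Pr p A2 X2 := by
  induction A using Finset.induction_on with
  | empty =>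
    intro A1 A2 X1 X2 hX1 hX2 _
    by_cases h : X1 ∅ ∧ X2 ∅
    · have e1 : Pr p A1 X1 = 1 := by
        rw [← Pr_true p A1]
        exact Pr_congr fun O _ => ⟨fun _ => trivial, fun _ => hX1 _ _ (empty_subset _) h.1⟩
      have e2 : Pr p A2 X2 = 1 := by
        rw [← Pr_true p A2]
        exact Pr_congr fun O _ => ⟨fun _ => trivial, fun _ => hX2 _ _ (empty_subset _) h.2⟩
      rw [e1, e2, one_mul]
      exact Pr_le_one h0 h1 _ _
    · have : Pr p ∅ (fun O : Finset (Sym2 V) => X1 (O ∩ A1) ∧ X2 (O ∩ A2)) = 0 := by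
        rw [← Pr_false p (∅ : Finset (Sym2 V))]
        refine Pr_congr fun O hO => ⟨fun h' => ?_, fun h => h.elim⟩
        rw [subset_empty.1 hO, empty_inter, empty_inter] at h'
        exact h h'
      rw [this]
      exact mul_nonneg (Pr_nonneg h0 h1 _ _) (Pr_nonneg h0 h1 _ _)
  | insert e A he ih =>
    intro A1 A2 X1 X2 hX1 hX2 hd
    rw [Pr_insert he]
    by_cases he1 : e ∈ A1
    · have he2 : e ∉ A2 := disjoint_left.1 hd he1
      have e1 : Pr p A (fun O => X1 (insert e O ∩ A1) ∧ X2 (insert e O ∩ A2)) =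
          Pr p A (fun O => (fun O => X1 (insert e O)) (O ∩ A1.erase e) ∧ X2 (O ∩ A2)) := by
        refine Pr_congr fun O hO => ?_
        rw [insert_inter_mem he1, insert_inter_of_notMem he2]
      have e2 : Pr p A (fun O => X1 (O ∩ A1) ∧ X2 (O ∩ A2)) =
          Pr p A (fun O => X1 (O ∩ A1.erase e) ∧ X2 (O ∩ A2)) := by
        refine Pr_congr fun O hO => ?_
        rw [inter_erase_notMem (A' := A1) (fun h => he (hO h))]
      rw [e1, e2, Pr_erase he1]
      have hd' : Disjoint (A1.erase e) A2 := disjoint_of_subset_left (erase_subset _ _) hd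
      have i1 := ih (A1.erase e) A2 (fun O => X1 (insert e O)) X2
        (fun O O' h => hX1 _ _ (insert_subset_insert e h)) hX2 hd'
      have i2 := ih (A1.erase e) A2 X1 X2 hX1 hX2 hd'
      have i3 := mul_le_mul_of_nonneg_left i1 h0
      have i4 := mul_le_mul_of_nonneg_left i2 (sub_nonneg.2 h1)
      linarith
    · by_cases he2 : e ∈ A2
      · have e1 : Pr p A (fun O => X1 (insert e O ∩ A1) ∧ X2 (insert e O ∩ A2)) =
            Pr p A (fun O => X1 (O ∩ A1) ∧ (fun O => X2 (insert e O)) (O ∩ A2.erase e)) := by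
          refine Pr_congr fun O hO => ?_
          rw [insert_inter_mem he2, insert_inter_of_notMem he1]
        have e2 : Pr p A (fun O => X1 (O ∩ A1) ∧ X2 (O ∩ A2)) =
            Pr p A (fun O => X1 (O ∩ A1) ∧ X2 (O ∩ A2.erase e)) := by
          refine Pr_congr fun O hO => ?_
          rw [inter_erase_notMem (A' := A2) (fun h => he (hO h))]
        rw [e1, e2, Pr_erase he2]
        have hd' : Disjoint A1 (A2.erase e) := disjoint_of_subset_right (erase_subset _ _) hd
        have i1 := ih A1 (A2.erase e) X1 (fun O => X2 (insert e O)) hX1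
          (fun O O' h => hX2 _ _ (insert_subset_insert e h)) hd'
        have i2 := ih A1 (A2.erase e) X1 X2 hX1 hX2 hd'
        have i3 := mul_le_mul_of_nonneg_left i1 h0
        have i4 := mul_le_mul_of_nonneg_left i2 (sub_nonneg.2 h1)
        linarith
      · have e1 : Pr p A (fun O => X1 (insert e O ∩ A1) ∧ X2 (insert e O ∩ A2)) =
            Pr p A (fun O => X1 (O ∩ A1) ∧ X2 (O ∩ A2)) := by
          refine Pr_congr fun O hO => ?_
          rw [insert_inter_of_notMem he1, insert_inter_of_notMem he2]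
        rw [e1]
        have := ih A1 A2 X1 X2 hX1 hX2 hd
        linarith

omit [DecidableEq V] in
theorem Rch.symm {O : Finset (Sym2 V)} {u v : V} (h : Rch O {u} v) : Rch O {v} u := by
  induction h with
  | base h =>
    rw [mem_singleton] at h
    subst h
    exact Rch.base (mem_singleton_self _)
  | @step x v _ hs ih =>
    refine Rch.trans (S' := {x}) ?_ ih
    intro y hy
    rw [mem_singleton] at hy
    subst hy
    exact Rch.step (Rch.base (mem_singleton_self _)) (by rw [Sym2.eq_swap]; exact hs)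

end General

variable {d : ℕ}

theorem Q_point_le {p : ℝ} (h0 : 0 ≤ p) (h1 : p ≤ 1) {n h : ℕ} (hh : 2 * h < n) {v : Fin d → ℤ}
    (hv : v ∈ sph (0 : Fin d → ℤ) n) :
    Q p {v} (EB 0 n) {0} ≤ arm p d h ^ 2 := by
  obtain ⟨hv1, i, hi⟩ := mem_sph.1 hv
  have hi' : |v i| = n := by simpa using hi
  set X1 : Finset (Sym2 (Fin d → ℤ)) → Prop := fun O => ∃ x ∈ sph (0 : Fin d → ℤ) h, Rch O {0} x
  set X2 : Finset (Sym2 (Fin d → ℤ)) → Prop := fun O => ∃ x ∈ sph v h, Rch O {v} x
  have hd : Disjoint (EB (0 : Fin d → ℤ) h) (EB v h) := by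
    rw [disjoint_left]
    intro e
    induction e using Sym2.ind with
    | _ x y =>
      intro k1 k2
      have g1 := mem_box.1 (mem_EB.1 k1).1 i
      have g2 := mem_box.1 (mem_EB.1 k2).1 i
      have g3 : |v i| ≤ |v i - x i| + |x i| := by
        have := abs_sub_le (v i) (x i) 0
        simpa using this
      rw [abs_sub_comm] at g3
      simp only [Pi.zero_apply, sub_zero] at g1
      omega
  have hle : Q p {v} (EB 0 n) {0} ≤
      Pr p (EB 0 n) (fun O => X1 (O ∩ EB 0 h) ∧ X2 (O ∩ EB v h)) := by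
    refine Pr_mono h0 h1 fun O hO => ?_
    rintro ⟨x, hx, hr⟩
    rw [Set.mem_singleton_iff] at hx
    subst hx
    have hlat : Lat O := fun a b hab => lat_EB _ _ a b (hO hab)
    constructor
    · rcases exit (N := h) hlat hr with ⟨g, _⟩ | g
      · exfalso
        have := mem_box.1 g i
        simp only [Pi.zero_apply, sub_zero] at this
        omega
      · exact g
    · rcases exit (N := h) hlat hr.symm with ⟨g, _⟩ | g
      · exfalso
        have := mem_box.1 g i
        simp only [Pi.zero_apply, zero_sub, abs_neg] at this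
        omega
      · exact g
  refine hle.trans ((Pr_two_le h0 h1 _ _ _ X1 X2 ?_ ?_ hd).trans ?_)
  · rintro O O' hOO ⟨x, hx, hr⟩
    exact ⟨x, hx, hr.mono hOO (Subset.refl _)⟩
  · rintro O O' hOO ⟨x, hx, hr⟩
    exact ⟨x, hx, hr.mono hOO (Subset.refl _)⟩
  · rw [sq]
    exact mul_le_mul (arm_translate p h0 h1 0 h) (arm_translate p h0 h1 v h)
      (Pr_nonneg h0 h1 _ _) (Q_nonneg h0 h1 _ _ _)

theorem mm_le_sq {p : ℝ} (h0 : 0 ≤ p) (h1 : p ≤ 1) {n h : ℕ} (hh : 2 * h < n) :
    mm p d n ≤ ((sph (0 : Fin d → ℤ) n).card : ℝ) * arm p d h ^ 2 := by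
  rw [mm, ← nsmul_eq_mul]
  exact sum_le_card_nsmul _ _ _ fun v hv => Q_point_le h0 h1 hh hv

theorem card_box (n : ℕ) : (box (0 : Fin d → ℤ) n).card = (2 * n + 1) ^ d := by
  rw [box, Fintype.card_piFinset]
  simp only [Pi.zero_apply, zero_sub, zero_add, Int.card_Icc]
  rw [prod_const, card_univ, Fintype.card_fin]
  congr 1
  omega

theorem card_sph (n : ℕ) : (sph (0 : Fin d → ℤ) (n + 1)).card + (2 * n + 1) ^ d ≤
    (2 * (n + 1) + 1) ^ d := by
  rw [← card_box, ← card_box, ← card_union_of_disjoint]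
  · refine card_le_card (union_subset ?_ ?_)
    · intro x hx
      exact mem_box.2 (mem_sph.1 hx).1
    · intro x hx
      rw [mem_box] at *
      intro i
      have := hx i
      push_cast
      omega
  · rw [disjoint_left]
    intro x hx hx'
    obtain ⟨_, i, hi⟩ := mem_sph.1 hx
    have := mem_box.1 hx' i
    push_cast at hi
    omega

end Pool.Agent.FPP38
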