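import Pool.Agent.FPP38.Ineq

/-!
The finite-size criterion for Bernoulli bond percolation on `ℤ^d`.
-/

set_option autoImplicit false

open Finset

namespace Pool.Agent.FPP38

section General

variable {V : Type*} [DecidableEq V]

/-- the probability of an increasing event depends monotonically on the set of edges -/
theorem Pr_inter_le {p : ℝ} (h0 : 0 ≤ p) (h1 : p ≤ 1) (A : Finset (Sym2 V)) :
    ∀ (A' : Finset (Sym2 V)) (X : Finset (Sym2 V) → Prop),
      (∀ O O' : Finset (Sym2 V), O ⊆ O' → X O → X O') →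
      Pr p A (fun O => X (O ∩ A')) ≤ Pr p A' X := by
  induction A using Finset.induction_on with
  | empty =>
    intro A' X hX
    by_cases h : X ∅
    · have : Pr p A' X = 1 := by
        rw [← Pr_true p A']
        exact Pr_congr fun O _ => ⟨fun _ => trivial, fun _ => hX _ _ (empty_subset _) h⟩
      rw [this]
      exact Pr_le_one h0 h1 _ _
    · have : Pr p ∅ (fun O : Finset (Sym2 V) => X (O ∩ A')) = 0 := by
        rw [← Pr_false p (∅ : Finset (Sym2 V))]
        refine Pr_congr fun O hO => ⟨fun h' => ?_, fun h => h.elim⟩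
        rw [subset_empty.1 hO, empty_inter] at h'
        exact h h'
      rw [this]
      exact Pr_nonneg h0 h1 _ _
  | insert e A he ih =>
    intro A' X hX
    rw [Pr_insert he]
    by_cases heA : e ∈ A'
    · have e1 : Pr p A (fun O => X (insert e O ∩ A')) =
          Pr p A (fun O => (fun O => X (insert e O)) (O ∩ A'.erase e)) := by
        refine Pr_congr fun O hO => ?_
        have : insert e O ∩ A' = insert e (O ∩ A'.erase e) := by
          ext f
          simp only [mem_inter, mem_insert, mem_erase]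
          constructor
          · rintro ⟨h1 | h1, h2⟩
            · exact Or.inl h1
            · by_cases hf : f = e
              · exact Or.inl hf
              · exact Or.inr ⟨h1, hf, h2⟩
          · rintro (h1 | ⟨h1, h2, h3⟩)
            · exact ⟨Or.inl h1, h1 ▸ heA⟩
            · exact ⟨Or.inr h1, h3⟩
        rw [this]
      have e2 : Pr p A (fun O => X (O ∩ A')) = Pr p A (fun O => X (O ∩ A'.erase e)) := by
        refine Pr_congr fun O hO => ?_
        have : O ∩ A' = O ∩ A'.erase e := by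
          ext f
          simp only [mem_inter, mem_erase]
          constructor
          · rintro ⟨h1, h2⟩
            exact ⟨h1, fun h => he (hO (h ▸ h1)), h2⟩
          · rintro ⟨h1, _, h3⟩
            exact ⟨h1, h3⟩
        rw [this]
      rw [e1, e2, Pr_erase heA]
      have i1 := ih (A'.erase e) (fun O => X (insert e O))
        (fun O O' h => hX _ _ (insert_subset_insert e h))
      have i2 := ih (A'.erase e) X hX
      have i3 := mul_le_mul_of_nonneg_left i1 h0
      have i4 := mul_le_mul_of_nonneg_left i2 (sub_nonneg.2 h1)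
      linarith
    · have e1 : Pr p A (fun O => X (insert e O ∩ A')) = Pr p A (fun O => X (O ∩ A')) := by
        refine Pr_congr fun O hO => ?_
        rw [insert_inter_of_notMem heA]
      rw [e1]
      have := ih A' X hX
      linarith

theorem Pr_or_le {p : ℝ} (h0 : 0 ≤ p) (h1 : p ≤ 1) (A : Finset (Sym2 V))
    (X Y : Finset (Sym2 V) → Prop) :
    Pr p A (fun O => X O ∨ Y O) ≤ Pr p A X + Pr p A Y := by
  unfold Pr
  rw [← sum_add_distrib]
  refine sum_le_sum fun O _ => ?_
  rw [← mul_add]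
  refine mul_le_mul_of_nonneg_left ?_ (wt_nonneg h0 h1 A O)
  by_cases hX : X O <;> by_cases hY : Y O <;> simp [hX, hY]

theorem Pr_exists_le {p : ℝ} (h0 : 0 ≤ p) (h1 : p ≤ 1) (A : Finset (Sym2 V)) {ι : Type*}
    [DecidableEq ι] (S : Finset ι) (X : ι → Finset (Sym2 V) → Prop) :
    Pr p A (fun O => ∃ u ∈ S, X u O) ≤ ∑ u ∈ S, Pr p A (X u) := by
  induction S using Finset.induction_on with
  | empty =>
    rw [sum_empty, ← Pr_false p A]
    exact Pr_mono h0 h1 fun O _ ⟨u, hu, _⟩ => (notMem_empty u hu).elim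
  | insert a S ha ih =>
    rw [sum_insert ha]
    refine le_trans ?_ ((Pr_or_le h0 h1 A (X a) (fun O => ∃ u ∈ S, X u O)).trans
      (add_le_add_right ih _))
    refine Pr_mono h0 h1 fun O _ => ?_
    rintro ⟨u, hu, h⟩
    rcases mem_insert.1 hu with rfl | hu
    · exact Or.inl h
    · exact Or.inr ⟨u, hu, h⟩

theorem Pr_map (p : ℝ) {W : Type*} [DecidableEq W] (f : Sym2 V ↪ Sym2 W) (A : Finset (Sym2 V)) :
    ∀ X : Finset (Sym2 W) → Prop, Pr p (A.map f) X = Pr p A (fun O => X (O.map f)) := by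
  induction A using Finset.induction_on with
  | empty =>
    intro X
    rw [map_empty]
    unfold Pr
    rw [powerset_empty, powerset_empty, sum_singleton, sum_singleton]
    have hm : (fun O => X (map f O)) ∅ = X ∅ := by show X (map f ∅) = X ∅; rw [map_empty]
    by_cases hX : X ∅
    · rw [if_pos hX, if_pos (by rw [hm]; exact hX)]; simp [wt]
    · rw [if_neg hX, if_neg (by rw [hm]; exact hX)]; simp [wt]
  | insert e A he ih =>
    intro X
    rw [map_insert, Pr_insert (by simpa using he), Pr_insert he, ih, ih]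
    simp only [map_insert]

omit [DecidableEq V] in
theorem Rch.trans {O : Finset (Sym2 V)} {S S' : Finset V} (h : ∀ u ∈ S', Rch O S u) {v : V}
    (hv : Rch O S' v) : Rch O S v := by
  induction hv with
  | base hu => exact h _ hu
  | step _ hs ih => exact Rch.step ih hs

end General

/-! ### The lattice -/

variable {d : ℕ}

/-- nearest neighbours in `ℤ^d` -/
def Nb (x y : Fin d → ℤ) : Prop := ∑ i, |x i - y i| = 1

theorem Nb.symm {x y : Fin d → ℤ} (h : Nb x y) : Nb y x := by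
  unfold Nb at *
  rw [← h]
  exact sum_congr rfl fun i _ => abs_sub_comm _ _

theorem Nb.abs_le {x y : Fin d → ℤ} (h : Nb x y) (i : Fin d) : |x i - y i| ≤ 1 := by
  unfold Nb at h
  rw [← h]
  exact single_le_sum (f := fun i => |x i - y i|) (fun j _ => abs_nonneg _) (mem_univ i)

/-- the box of radius `n` around `u` -/
noncomputable def box (u : Fin d → ℤ) (n : ℕ) : Finset (Fin d → ℤ) :=
  Fintype.piFinset fun i => Icc (u i - n) (u i + n)

theorem mem_box {u x : Fin d → ℤ} {n : ℕ} : x ∈ box u n ↔ ∀ i, |x i - u i| ≤ n := by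
  rw [box, Fintype.mem_piFinset]
  refine forall_congr' fun i => ?_
  rw [mem_Icc, _root_.abs_le]
  constructor <;> rintro ⟨h1, h2⟩ <;> constructor <;> linarith

open Classical in
/-- the sphere of radius `n` around `u` -/
noncomputable def sph (u : Fin d → ℤ) (n : ℕ) : Finset (Fin d → ℤ) :=
  (box u n).filter fun x => ∃ i, |x i - u i| = n

theorem mem_sph {u x : Fin d → ℤ} {n : ℕ} :
    x ∈ sph u n ↔ (∀ i, |x i - u i| ≤ n) ∧ ∃ i, |x i - u i| = n := by
  rw [sph, mem_filter, mem_box]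

open Classical in
/-- the edges of the box of radius `n` around `u` -/
noncomputable def EB (u : Fin d → ℤ) (n : ℕ) : Finset (Sym2 (Fin d → ℤ)) :=
  ((box u n ×ˢ box u n).filter fun q => Nb q.1 q.2).image fun q => s(q.1, q.2)

open Classical in
theorem mem_EB {u x y : Fin d → ℤ} {n : ℕ} :
    s(x, y) ∈ EB u n ↔ x ∈ box u n ∧ y ∈ box u n ∧ Nb x y := by
  rw [EB, mem_image]
  constructor
  · rintro ⟨⟨a, b⟩, hq, he⟩
    rw [mem_filter, mem_product] at hq
    rw [Sym2.eq_iff] at he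
    obtain ⟨⟨h1, h2⟩, h3⟩ := hq
    simp only at h1 h2 h3 he
    rcases he with ⟨rfl, rfl⟩ | ⟨rfl, rfl⟩
    · exact ⟨h1, h2, h3⟩
    · exact ⟨h2, h1, h3.symm⟩
  · rintro ⟨h1, h2, h3⟩
    exact ⟨(x, y), by rw [mem_filter, mem_product]; exact ⟨⟨h1, h2⟩, h3⟩, rfl⟩

/-- all edges are lattice edges -/
def Lat (A : Finset (Sym2 (Fin d → ℤ))) : Prop := ∀ x y, s(x, y) ∈ A → Nb x y

theorem lat_EB (u : Fin d → ℤ) (n : ℕ) : Lat (EB u n) := fun _ _ h => (mem_EB.1 h).2.2

theorem self_mem_box (u : Fin d → ℤ) (n : ℕ) : u ∈ box u n := by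
  rw [mem_box]; intro i; simp

theorem mem_box_of_nb {u x y : Fin d → ℤ} {n : ℕ} (hx : x ∈ box u n) (hx' : x ∉ sph u n)
    (h : Nb x y) : y ∈ box u n := by
  rw [mem_box] at hx ⊢
  intro i
  have h1 := hx i
  have h2 : |x i - u i| ≠ n := fun h => hx' (mem_sph.2 ⟨hx, i, h⟩)
  have h3 := h.symm.abs_le i
  have h4 : |y i - u i| ≤ |y i - x i| + |x i - u i| := abs_sub_le _ _ _
  omega

/-- leaving a box -/
theorem exit {O : Finset (Sym2 (Fin d → ℤ))} (hO : Lat O) {u : Fin d → ℤ} {N : ℕ} {v : Fin d → ℤ}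
    (h : Rch O {u} v) : (v ∈ box u N ∧ Rch (O ∩ EB u N) {u} v) ∨
      ∃ v' ∈ sph u N, Rch (O ∩ EB u N) {u} v' := by
  induction h with
  | @base v h =>
    rw [mem_singleton] at h
    subst h
    exact Or.inl ⟨self_mem_box _ _, Rch.base (mem_singleton_self _)⟩
  | @step x v _ hs ih =>
    rcases ih with ⟨h1, h2⟩ | h
    · by_cases hx : x ∈ sph u N
      · exact Or.inr ⟨x, hx, h2⟩
      · have hv := mem_box_of_nb h1 hx (hO _ _ hs)
        exact Or.inl ⟨hv, Rch.step h2 (mem_inter.2 ⟨hs, mem_EB.2 ⟨h1, hv, hO _ _ hs⟩⟩)⟩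
    · exact Or.inr h

/-- the one-arm probability -/
noncomputable def arm (p : ℝ) (d N : ℕ) : ℝ :=
  Q p (sph (0 : Fin d → ℤ) N : Set (Fin d → ℤ)) (EB 0 N) {0}

/-- the expected number of vertices of the sphere joined to the origin in the box -/
noncomputable def mm (p : ℝ) (d n : ℕ) : ℝ :=
  ∑ v ∈ sph (0 : Fin d → ℤ) n, Q p {v} (EB 0 n) {0}

/-- translation on edges -/
def tr (u : Fin d → ℤ) : Sym2 (Fin d → ℤ) ↪ Sym2 (Fin d → ℤ) :=
  ⟨Sym2.map (fun x => x + u), Sym2.map.injective (add_left_injective u)⟩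

theorem tr_mk (u x y : Fin d → ℤ) : tr u s(x, y) = s(x + u, y + u) := rfl

theorem rch_tr {O : Finset (Sym2 (Fin d → ℤ))} {u v : Fin d → ℤ} {S : Finset (Fin d → ℤ)}
    (h : Rch (O.map (tr u)) S v) {S' : Finset (Fin d → ℤ)} (hS : ∀ x ∈ S, x - u ∈ S') :
    Rch O S' (v - u) := by
  induction h with
  | base h => exact Rch.base (hS _ h)
  | @step x v _ hs ih =>
    rw [mem_map] at hs
    obtain ⟨e, he, he'⟩ := hs
    induction e using Sym2.ind with
    | _ a b =>
      rw [tr_mk, Sym2.eq_iff] at he'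
      rcases he' with ⟨rfl, rfl⟩ | ⟨rfl, rfl⟩
      · rw [add_sub_cancel_right] at ih ⊢
        exact Rch.step ih he
      · rw [add_sub_cancel_right] at ih ⊢
        exact Rch.step ih (by rw [Sym2.eq_swap]; exact he)

theorem EB_map (u : Fin d → ℤ) (N : ℕ) : (EB 0 N).map (tr u) = EB u N := by
  ext e
  induction e using Sym2.ind with
  | _ x y =>
    rw [mem_map]
    constructor
    · rintro ⟨e, he, he'⟩
      induction e using Sym2.ind with
      | _ a b =>
        rw [mem_EB, mem_box, mem_box] at he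
        obtain ⟨h1, h2, h3⟩ := he
        rw [tr_mk, Sym2.eq_iff] at he'
        have key : s(a + u, b + u) ∈ EB u N := by
          rw [mem_EB, mem_box, mem_box]
          refine ⟨fun i => ?_, fun i => ?_, ?_⟩
          · simpa using h1 i
          · simpa using h2 i
          · unfold Nb at h3 ⊢
            simpa using h3
        rcases he' with ⟨rfl, rfl⟩ | ⟨rfl, rfl⟩
        · exact key
        · rw [Sym2.eq_swap]; exact key
    · intro h
      rw [mem_EB, mem_box, mem_box] at h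
      obtain ⟨h1, h2, h3⟩ := h
      refine ⟨s(x - u, y - u), ?_, ?_⟩
      · rw [mem_EB, mem_box, mem_box]
        refine ⟨fun i => ?_, fun i => ?_, ?_⟩
        · simpa using h1 i
        · simpa using h2 i
        · unfold Nb at h3 ⊢
          simpa using h3
      · rw [tr_mk, sub_add_cancel, sub_add_cancel]

theorem arm_translate (p : ℝ) (h0 : 0 ≤ p) (h1 : p ≤ 1) (u : Fin d → ℤ) (N : ℕ) :
    Pr p (EB u N) (fun O => ∃ v ∈ sph u N, Rch O {u} v) ≤ arm p d N := by
  rw [← EB_map u N, Pr_map]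
  refine Pr_mono h0 h1 fun O _ => ?_
  rintro ⟨v, hv, hr⟩
  refine ⟨v - u, ?_, rch_tr hr (S' := {0}) ?_⟩
  · rw [mem_coe, mem_sph] at *
    obtain ⟨g1, i, g2⟩ := hv
    exact ⟨fun i => by simpa using g1 i, i, by simpa using g2⟩
  · intro x hx
    rw [mem_singleton] at hx
    subst hx
    simp

/-- a vertex of the box of radius `n` connects to the sphere of radius `n + N` with probability at
most `arm p d N` -/
theorem far_le {p : ℝ} (h0 : 0 ≤ p) (h1 : p ≤ 1) {A : Finset (Sym2 (Fin d → ℤ))} (hA : Lat A)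
    {n N : ℕ} {u : Fin d → ℤ} (hu : u ∈ box (0 : Fin d → ℤ) n) :
    Q p (sph (0 : Fin d → ℤ) (n + N) : Set (Fin d → ℤ)) A {u} ≤ arm p d N := by
  refine le_trans ?_ (arm_translate p h0 h1 u N)
  refine le_trans ?_ (Pr_inter_le h0 h1 A (EB u N) (fun O => ∃ v ∈ sph u N, Rch O {u} v) ?_)
  · refine Pr_mono h0 h1 fun O hO => ?_
    rintro ⟨v, hv, hr⟩
    rcases exit (N := N) (fun x y h => hA x y (hO h)) hr with ⟨g1, g2⟩ | g
    · refine ⟨v, ?_, g2⟩
      rw [mem_coe, mem_sph] at hv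
      rw [mem_box] at hu g1
      obtain ⟨_, i, hi⟩ := hv
      refine mem_sph.2 ⟨g1, i, le_antisymm (g1 i) ?_⟩
      have k1 := hu i
      have k2 : |v i - (0 : Fin d → ℤ) i| ≤ |v i - u i| + |u i - (0 : Fin d → ℤ) i| :=
        abs_sub_le _ _ _
      push_cast at hi
      linarith
    · exact g
  · rintro O O' hOO ⟨v, hv, hr⟩
    exact ⟨v, hv, hr.mono hOO (Subset.refl _)⟩

theorem Q_union_le {p : ℝ} (h0 : 0 ≤ p) (h1 : p ≤ 1) {A : Finset (Sym2 (Fin d → ℤ))} (hA : Lat A)
    {n N : ℕ} (hN : 1 ≤ N) {S : Finset (Fin d → ℤ)} (hS : S ⊆ box 0 n)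
    (hE : Exh (A ∩ EB 0 n) S) :
    Q p (sph (0 : Fin d → ℤ) (n + N) : Set (Fin d → ℤ)) A S ≤
      ((S ∩ sph 0 n).card : ℝ) * arm p d N := by
  have key : ∀ O ⊆ A, ∀ v, Rch O S v → v ∈ S ∨ ∃ u ∈ S ∩ sph 0 n, Rch O {u} v := by
    intro O hO v h
    induction h with
    | base h => exact Or.inl h
    | @step x v _ hs ih =>
      rcases ih with h1 | ⟨u, hu, h2⟩
      · by_cases hv : v ∈ S
        · exact Or.inl hv
        · right
          refine ⟨x, mem_inter.2 ⟨h1, ?_⟩, Rch.step (Rch.base (mem_singleton_self _)) hs⟩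
          by_contra hx
          have hnb := hA _ _ (hO hs)
          have hvb := mem_box_of_nb (hS h1) hx hnb
          exact hv (hE x h1 v (mem_inter.2 ⟨hO hs, mem_EB.2 ⟨hS h1, hvb, hnb⟩⟩))
      · exact Or.inr ⟨u, hu, Rch.step h2 hs⟩
  have h2 : Q p (sph (0 : Fin d → ℤ) (n + N) : Set (Fin d → ℤ)) A S ≤
      Pr p A (fun O => ∃ u ∈ S ∩ sph 0 n,
        ∃ v ∈ (sph (0 : Fin d → ℤ) (n + N) : Set (Fin d → ℤ)), Rch O {u} v) := by
    refine Pr_mono h0 h1 fun O hO => ?_
    rintro ⟨v, hv, hr⟩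
    rcases key O hO v hr with h | ⟨u, hu, h⟩
    · exfalso
      have k1 := mem_box.1 (hS h)
      rw [mem_coe, mem_sph] at hv
      obtain ⟨_, i, hi⟩ := hv
      have := k1 i
      push_cast at hi
      omega
    · exact ⟨u, hu, v, hv, h⟩
  refine h2.trans ((Pr_exists_le h0 h1 A _ _).trans ?_)
  rw [← nsmul_eq_mul]
  refine sum_le_card_nsmul _ _ _ fun u hu => ?_
  exact far_le h0 h1 hA (hS (mem_inter.1 hu).1)

/-- **Exploration of the cluster in the box.** -/
theorem explore {p : ℝ} (h0 : 0 ≤ p) (h1 : p ≤ 1) {n N : ℕ} (hN : 1 ≤ N) :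
    ∀ (A : Finset (Sym2 (Fin d → ℤ))) (S : Finset (Fin d → ℤ)), Lat A → S ⊆ box 0 n →
      Q p (sph (0 : Fin d → ℤ) (n + N) : Set (Fin d → ℤ)) A S ≤
        (∑ v ∈ sph (0 : Fin d → ℤ) n, Q p {v} (A ∩ EB 0 n) S) * arm p d N := by
  intro A
  induction hn : A.card using Nat.strong_induction_on generalizing A with
  | _ k ih =>
    intro S hA hS
    have harm : 0 ≤ arm p d N := Q_nonneg h0 h1 _ _ _
    by_cases hE : Exh (A ∩ EB 0 n) S
    · refine (Q_union_le h0 h1 hA hN hS hE).trans (mul_le_mul_of_nonneg_right ?_ harm)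
      have e1 : (((S ∩ sph 0 n).card : ℕ) : ℝ) = ∑ v ∈ S ∩ sph 0 n, (1 : ℝ) := by simp
      rw [e1]
      calc ∑ v ∈ S ∩ sph 0 n, (1 : ℝ) = ∑ v ∈ S ∩ sph 0 n, Q p {v} (A ∩ EB 0 n) S := by
            refine sum_congr rfl fun v hv => ?_
            exact (Q_eq_one (t := {v}) ⟨v, (mem_inter.1 hv).1, rfl⟩).symm
        _ ≤ _ := sum_le_sum_of_subset_of_nonneg inter_subset_right
            fun v _ _ => Q_nonneg h0 h1 _ _ _
    · unfold Exh at hE
      push Not at hE
      obtain ⟨a, ha, w, he, hw⟩ := hE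
      have heA : s(a, w) ∈ A := (mem_inter.1 he).1
      have heE := (mem_inter.1 he).2
      have hwb : w ∈ box (0 : Fin d → ℤ) n := (mem_EB.1 heE).2.1
      have hcard : (A.erase s(a, w)).card < k := by
        rw [← hn]; exact card_erase_lt_of_mem heA
      have hA' : Lat (A.erase s(a, w)) := fun x y h => hA x y (mem_of_mem_erase h)
      have hint : A.erase s(a, w) ∩ EB 0 n = (A ∩ EB 0 n).erase s(a, w) := by
        ext f; simp only [mem_inter, mem_erase]; tauto
      have i1 := ih _ hcard (A.erase s(a, w)) rfl (insert w S) hA'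
        (insert_subset hwb hS)
      have i2 := ih _ hcard (A.erase s(a, w)) rfl S hA' hS
      rw [hint] at i1 i2
      rw [Q_reveal ha heA]
      have e1 : ∑ v ∈ sph (0 : Fin d → ℤ) n, Q p {v} (A ∩ EB 0 n) S =
          p * ∑ v ∈ sph (0 : Fin d → ℤ) n, Q p {v} ((A ∩ EB 0 n).erase s(a, w)) (insert w S) +
            (1 - p) * ∑ v ∈ sph (0 : Fin d → ℤ) n, Q p {v} ((A ∩ EB 0 n).erase s(a, w)) S := by
        rw [mul_sum, mul_sum, ← sum_add_distrib]
        exact sum_congr rfl fun v _ => Q_reveal ha he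
      rw [e1, add_mul]
      have j1 := mul_le_mul_of_nonneg_left i1 h0
      have j2 := mul_le_mul_of_nonneg_left i2 (sub_nonneg.2 h1)
      linarith

theorem EB_mono {m n : ℕ} (h : m ≤ n) : EB (0 : Fin d → ℤ) m ⊆ EB 0 n := by
  intro e
  induction e using Sym2.ind with
  | _ x y =>
    rw [mem_EB, mem_EB]
    rintro ⟨h1, h2, h3⟩
    refine ⟨?_, ?_, h3⟩
    · rw [mem_box] at *; intro i; have := h1 i; omega
    · rw [mem_box] at *; intro i; have := h2 i; omega

theorem arm_add_le {p : ℝ} (h0 : 0 ≤ p) (h1 : p ≤ 1) {n N : ℕ} (hN : 1 ≤ N) :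
    arm p d (n + N) ≤ mm p d n * arm p d N := by
  have := explore h0 h1 (n := n) hN (EB (0 : Fin d → ℤ) (n + N)) {0} (lat_EB _ _)
    (singleton_subset_iff.2 (self_mem_box _ _))
  rwa [inter_eq_right.2 (EB_mono (Nat.le_add_right n N))] at this

theorem mm_nonneg {p : ℝ} (h0 : 0 ≤ p) (h1 : p ≤ 1) (n : ℕ) : 0 ≤ mm p d n :=
  sum_nonneg fun _ _ => Q_nonneg h0 h1 _ _ _

theorem arm_pow_le {p : ℝ} (h0 : 0 ≤ p) (h1 : p ≤ 1) {n : ℕ} (hn : 1 ≤ n) (k : ℕ) :
    arm p d (n * (k + 1)) ≤ mm p d n ^ k := by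
  induction k with
  | zero => rw [pow_zero]; exact Q_le_one h0 h1 _ _ _
  | succ k ih =>
    have e : n * (k + 1 + 1) = n + n * (k + 1) := by ring
    rw [e, pow_succ']
    refine (arm_add_le h0 h1 (by nlinarith)).trans ?_
    exact mul_le_mul_of_nonneg_left ih (mm_nonneg h0 h1 n)

/-- `mm ≤ |sphere| * arm` -/
theorem mm_le {p : ℝ} (h0 : 0 ≤ p) (h1 : p ≤ 1) (n : ℕ) :
    mm p d n ≤ ((sph (0 : Fin d → ℤ) n).card : ℝ) * arm p d n := by
  rw [mm, ← nsmul_eq_mul]
  refine sum_le_card_nsmul _ _ _ fun v hv => ?_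
  refine Pr_mono h0 h1 fun O _ => ?_
  rintro ⟨x, hx, hr⟩
  rw [Set.mem_singleton_iff] at hx
  subst hx
  exact ⟨x, hv, hr⟩

end Pool.Agent.FPP38
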