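import Mathlib

/-!
Bernoulli first-passage percolation on a finite set of edges: reachability at a given cost, and
the effect of revealing one edge.
-/

set_option autoImplicit false

open Finset

namespace Pool.Agent.FPP38

variable {V : Type*} [DecidableEq V]

/-- `RC A O S R k v`: the vertex `v` is reached at cost at most `k` by a path with edges in `A` from
`S` (initial cost `0`) or from `R` (initial cost `1`); the edges of `O` are free and those of `A`
cost `1`. -/
inductive RC (A O : Finset (Sym2 V)) (S R : Finset V) : ℕ → V → Prop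
  | b0 {k : ℕ} {v : V} : v ∈ S → RC A O S R k v
  | b1 {k : ℕ} {v : V} : v ∈ R → RC A O S R (k + 1) v
  | op {k : ℕ} {u v : V} : RC A O S R k u → s(u, v) ∈ O → RC A O S R k v
  | cl {k : ℕ} {u v : V} : RC A O S R k u → s(u, v) ∈ A → RC A O S R (k + 1) v

/-- `Rch O S v`: the vertex `v` is joined to `S` by a path with edges in `O`. -/
inductive Rch (O : Finset (Sym2 V)) (S : Finset V) : V → Prop
  | base {v : V} : v ∈ S → Rch O S v
  | step {u v : V} : Rch O S u → s(u, v) ∈ O → Rch O S v

omit [DecidableEq V] in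
theorem Rch.mono {O O' : Finset (Sym2 V)} {S S' : Finset V} (hO : O ⊆ O') (hS : S ⊆ S') {v : V}
    (h : Rch O S v) : Rch O' S' v := by
  induction h with
  | base h => exact Rch.base (hS h)
  | step _ h ih => exact Rch.step ih (hO h)

omit [DecidableEq V] in
theorem rc_zero {A O : Finset (Sym2 V)} {S R : Finset V} {v : V} :
    RC A O S R 0 v ↔ Rch O S v := by
  constructor
  · intro h
    generalize hk : 0 = k at h
    induction h with
    | b0 h => exact Rch.base h
    | b1 h => exact absurd hk (by omega)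
    | op _ h ih => exact Rch.step (ih hk) h
    | cl _ h ih => exact absurd hk (by omega)
  · intro h
    induction h with
    | base h => exact RC.b0 h
    | step _ h ih => exact RC.op ih h

/-- revealing a free edge `s(a, w)` with `a ∈ S` -/
theorem rc_open {A O : Finset (Sym2 V)} {S R : Finset V} {a w : V} (ha : a ∈ S)
    (he : s(a, w) ∈ O) {k : ℕ} {v : V} :
    RC A O S R k v ↔ RC (A.erase s(a, w)) (O.erase s(a, w)) (insert w S) R k v := by
  constructor
  · intro h
    induction h with
    | b0 h => exact RC.b0 (mem_insert_of_mem h)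
    | b1 h => exact RC.b1 h
    | @op k u v _ h ih =>
      by_cases hc : s(u, v) = s(a, w)
      · rw [Sym2.eq_iff] at hc
        rcases hc with ⟨_, rfl⟩ | ⟨_, rfl⟩
        · exact RC.b0 (mem_insert_self _ _)
        · exact RC.b0 (mem_insert_of_mem ha)
      · exact RC.op ih (mem_erase.2 ⟨hc, h⟩)
    | @cl k u v _ h ih =>
      by_cases hc : s(u, v) = s(a, w)
      · rw [Sym2.eq_iff] at hc
        rcases hc with ⟨_, rfl⟩ | ⟨_, rfl⟩
        · exact RC.b0 (mem_insert_self _ _)
        · exact RC.b0 (mem_insert_of_mem ha)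
      · exact RC.cl ih (mem_erase.2 ⟨hc, h⟩)
  · intro h
    induction h with
    | b0 h =>
      rcases mem_insert.1 h with rfl | h
      · exact RC.op (RC.b0 ha) he
      · exact RC.b0 h
    | b1 h => exact RC.b1 h
    | op _ h ih => exact RC.op ih (mem_of_mem_erase h)
    | cl _ h ih => exact RC.cl ih (mem_of_mem_erase h)

/-- revealing an edge `s(a, w)` of cost one with `a ∈ S` -/
theorem rc_closed {A O : Finset (Sym2 V)} {S R : Finset V} {a w : V} (ha : a ∈ S)
    (he : s(a, w) ∈ A) (he' : s(a, w) ∉ O) {k : ℕ} {v : V} :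
    RC A O S R k v ↔ RC (A.erase s(a, w)) O S (insert w R) k v := by
  constructor
  · intro h
    induction h with
    | b0 h => exact RC.b0 h
    | b1 h => exact RC.b1 (mem_insert_of_mem h)
    | op _ h ih => exact RC.op ih h
    | @cl k u v _ h ih =>
      by_cases hc : s(u, v) = s(a, w)
      · rw [Sym2.eq_iff] at hc
        rcases hc with ⟨_, rfl⟩ | ⟨_, rfl⟩
        · exact RC.b1 (mem_insert_self _ _)
        · exact RC.b0 ha
      · exact RC.cl ih (mem_erase.2 ⟨hc, h⟩)
  · intro h
    induction h with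
    | b0 h => exact RC.b0 h
    | b1 h =>
      rcases mem_insert.1 h with rfl | h
      · exact RC.cl (RC.b0 ha) he
      · exact RC.b1 h
    | op _ h ih => exact RC.op ih h
    | cl _ h ih => exact RC.cl ih (mem_of_mem_erase h)

/-- `S` is closed under the edges of `A` -/
def Exh (A : Finset (Sym2 V)) (S : Finset V) : Prop := ∀ u ∈ S, ∀ v, s(u, v) ∈ A → v ∈ S

omit [DecidableEq V] in
theorem rch_exh {A O : Finset (Sym2 V)} {S : Finset V} (hOA : O ⊆ A) (hE : Exh A S) {v : V}
    (h : Rch O S v) : v ∈ S := by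
  induction h with
  | base h => exact h
  | step _ h ih => exact hE _ ih _ (hOA h)

theorem rc_exh {A O : Finset (Sym2 V)} {S R : Finset V} (hOA : O ⊆ A) (hE : Exh A S) {k : ℕ} {v : V} :
    RC A O S R (k + 1) v ↔ RC A O (S ∪ R) ∅ k v := by
  constructor
  · intro h
    have key : ∀ {j : ℕ} {v : V}, RC A O S R j v →
        v ∈ S ∨ ∃ k, j = k + 1 ∧ RC A O (S ∪ R) ∅ k v := by
      intro j v h
      induction h with
      | b0 h => exact Or.inl h
      | @b1 k v h => exact Or.inr ⟨k, rfl, RC.b0 (mem_union_right _ h)⟩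
      | @op k u v _ h ih =>
        rcases ih with h1 | ⟨j, h1, h2⟩
        · exact Or.inl (hE _ h1 _ (hOA h))
        · exact Or.inr ⟨j, h1, RC.op h2 h⟩
      | @cl k u v _ h ih =>
        rcases ih with h1 | ⟨j, h1, h2⟩
        · exact Or.inl (hE _ h1 _ h)
        · exact Or.inr ⟨j + 1, by omega, RC.cl h2 h⟩
    rcases key h with h1 | ⟨j, h1, h2⟩
    · exact RC.b0 (mem_union_left _ h1)
    · obtain rfl : k = j := by omega
      exact h2
  · intro h
    induction h with
    | b0 h =>
      rcases mem_union.1 h with h | h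
      · exact RC.b0 h
      · exact RC.b1 h
    | b1 h => exact absurd h (notMem_empty _)
    | op _ h ih => exact RC.op ih h
    | cl _ h ih => exact RC.cl ih h

/-! ### Probabilities -/

open Classical in
/-- the probability of the configuration `O` of open edges among those of `A` -/
noncomputable def wt (p : ℝ) (A O : Finset (Sym2 V)) : ℝ := ∏ e ∈ A, if e ∈ O then p else 1 - p

open Classical in
/-- probability of an event depending on the set of open edges -/
noncomputable def Pr (p : ℝ) (A : Finset (Sym2 V)) (X : Finset (Sym2 V) → Prop) : ℝ :=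
  ∑ O ∈ A.powerset, wt p A O * (if X O then 1 else 0)

theorem wt_nonneg {p : ℝ} (h0 : 0 ≤ p) (h1 : p ≤ 1) (A O : Finset (Sym2 V)) : 0 ≤ wt p A O := by
  unfold wt
  refine prod_nonneg fun e _ => ?_
  split_ifs
  · exact h0
  · linarith

theorem Pr_nonneg {p : ℝ} (h0 : 0 ≤ p) (h1 : p ≤ 1) (A : Finset (Sym2 V))
    (X : Finset (Sym2 V) → Prop) : 0 ≤ Pr p A X := by
  unfold Pr
  refine sum_nonneg fun O _ => mul_nonneg (wt_nonneg h0 h1 A O) ?_
  split_ifs <;> norm_num

theorem Pr_insert {p : ℝ} {A : Finset (Sym2 V)} {e : Sym2 V} (he : e ∉ A)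
    (X : Finset (Sym2 V) → Prop) :
    Pr p (insert e A) X = p * Pr p A (fun O => X (insert e O)) + (1 - p) * Pr p A X := by
  unfold Pr
  rw [sum_powerset_insert he, mul_sum, mul_sum, add_comm]
  congr 1
  · refine sum_congr rfl fun O hO => ?_
    have hO' := mem_powerset.1 hO
    have : wt p (insert e A) (insert e O) = p * wt p A O := by
      unfold wt
      rw [prod_insert he, if_pos (mem_insert_self _ _)]
      congr 1
      refine prod_congr rfl fun f hf => ?_
      have hne : f ≠ e := fun h => he (h ▸ hf)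
      simp [mem_insert, hne]
    rw [this, mul_assoc]
  · refine sum_congr rfl fun O hO => ?_
    have hO' := mem_powerset.1 hO
    have : wt p (insert e A) O = (1 - p) * wt p A O := by
      unfold wt
      rw [prod_insert he, if_neg (fun h => he (hO' h))]
    rw [this, mul_assoc]

theorem Pr_erase {p : ℝ} {A : Finset (Sym2 V)} {e : Sym2 V} (he : e ∈ A)
    (X : Finset (Sym2 V) → Prop) :
    Pr p A X = p * Pr p (A.erase e) (fun O => X (insert e O)) + (1 - p) * Pr p (A.erase e) X := by
  conv_lhs => rw [← insert_erase he]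
  exact Pr_insert (notMem_erase _ _) X

theorem Pr_congr {p : ℝ} {A : Finset (Sym2 V)} {X Y : Finset (Sym2 V) → Prop}
    (h : ∀ O ⊆ A, (X O ↔ Y O)) : Pr p A X = Pr p A Y := by
  unfold Pr
  refine sum_congr rfl fun O hO => ?_
  have h1 := h O (mem_powerset.1 hO)
  by_cases hX : X O
  · rw [if_pos hX, if_pos (h1.1 hX)]
  · rw [if_neg hX, if_neg (fun hY => hX (h1.2 hY))]

theorem Pr_mono {p : ℝ} (h0 : 0 ≤ p) (h1 : p ≤ 1) {A : Finset (Sym2 V)}
    {X Y : Finset (Sym2 V) → Prop} (h : ∀ O ⊆ A, X O → Y O) : Pr p A X ≤ Pr p A Y := by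
  unfold Pr
  refine sum_le_sum fun O hO => mul_le_mul_of_nonneg_left ?_ (wt_nonneg h0 h1 A O)
  have := h O (mem_powerset.1 hO)
  by_cases hX : X O
  · simp [hX, this hX]
  · rw [if_neg hX]; split_ifs <;> norm_num

theorem Pr_true (p : ℝ) (A : Finset (Sym2 V)) : Pr p A (fun _ => True) = 1 := by
  induction A using Finset.induction_on with
  | empty => simp [Pr, wt]
  | insert e A he ih => rw [Pr_insert he, ih]; ring

theorem Pr_not (p : ℝ) (A : Finset (Sym2 V)) (X : Finset (Sym2 V) → Prop) :
    Pr p A (fun O => ¬ X O) = 1 - Pr p A X := by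
  rw [← Pr_true p A, eq_sub_iff_add_eq]
  unfold Pr
  rw [← sum_add_distrib]
  refine sum_congr rfl fun O _ => ?_
  by_cases h : X O <;> simp [h]

theorem Pr_le_one {p : ℝ} (h0 : 0 ≤ p) (h1 : p ≤ 1) (A : Finset (Sym2 V))
    (X : Finset (Sym2 V) → Prop) : Pr p A X ≤ 1 := by
  rw [← Pr_true p A]
  exact Pr_mono h0 h1 fun O _ _ => trivial

theorem Pr_false (p : ℝ) (A : Finset (Sym2 V)) : Pr p A (fun _ => False) = 0 := by
  unfold Pr
  refine sum_eq_zero fun O _ => ?_
  rw [if_neg (fun h => h), mul_zero]

end Pool.Agent.FPP38
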