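import Pool.Agent.FPP38.Fin

/-!
`E T ≤ - log P(T = 0)` for Bernoulli first-passage percolation on a finite set of edges.
-/

set_option autoImplicit false

open Finset

namespace Pool.Agent.FPP38

variable {V : Type*} [DecidableEq V]

/-- the passage time to `t` is at most `k` -/
def Hit (t : Set V) (A O : Finset (Sym2 V)) (S R : Finset V) (k : ℕ) : Prop :=
  ∃ v ∈ t, RC A O S R k v

/-- the probability that the passage time is larger than `k` -/
noncomputable def Fl (p : ℝ) (t : Set V) (A : Finset (Sym2 V)) (S R : Finset V) (k : ℕ) : ℝ :=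
  Pr p A (fun O => ¬ Hit t A O S R k)

/-- the probability of a free connection to `t` -/
noncomputable def Q (p : ℝ) (t : Set V) (A : Finset (Sym2 V)) (S : Finset V) : ℝ :=
  Pr p A (fun O => ∃ v ∈ t, Rch O S v)

omit [DecidableEq V] in
theorem hit_zero {t : Set V} {A O : Finset (Sym2 V)} {S R : Finset V} :
    Hit t A O S R 0 ↔ ∃ v ∈ t, Rch O S v := by
  simp only [Hit, rc_zero]

theorem Fl_zero (p : ℝ) (t : Set V) (A : Finset (Sym2 V)) (S R : Finset V) :
    Fl p t A S R 0 = 1 - Q p t A S := by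
  rw [Fl, Pr_not]
  simp only [hit_zero, Q]

theorem Fl_reveal {p : ℝ} {t : Set V} {A : Finset (Sym2 V)} {S R : Finset V} {a w : V}
    (ha : a ∈ S) (he : s(a, w) ∈ A) (k : ℕ) :
    Fl p t A S R k = p * Fl p t (A.erase s(a, w)) (insert w S) R k +
      (1 - p) * Fl p t (A.erase s(a, w)) S (insert w R) k := by
  rw [Fl, Pr_erase he]
  congr 1
  · congr 1
    refine Pr_congr fun O hO => ?_
    have hn : s(a, w) ∉ O := fun h => (notMem_erase _ _) (hO h)
    simp only [Hit, rc_open ha (mem_insert_self s(a, w) O), erase_insert hn]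
  · congr 1
    refine Pr_congr fun O hO => ?_
    have hn : s(a, w) ∉ O := fun h => (notMem_erase _ _) (hO h)
    simp only [Hit, rc_closed ha he hn]

theorem Q_reveal {p : ℝ} {t : Set V} {A : Finset (Sym2 V)} {S : Finset V} {a w : V}
    (ha : a ∈ S) (he : s(a, w) ∈ A) :
    Q p t A S = p * Q p t (A.erase s(a, w)) (insert w S) +
      (1 - p) * Q p t (A.erase s(a, w)) S := by
  have h := Fl_reveal (p := p) (t := t) (R := (∅ : Finset V)) ha he 0
  rw [Fl_zero, Fl_zero, Fl_zero] at h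
  linarith

theorem Q_nonneg {p : ℝ} (h0 : 0 ≤ p) (h1 : p ≤ 1) (t : Set V) (A : Finset (Sym2 V))
    (S : Finset V) : 0 ≤ Q p t A S := Pr_nonneg h0 h1 _ _

theorem Q_le_one {p : ℝ} (h0 : 0 ≤ p) (h1 : p ≤ 1) (t : Set V) (A : Finset (Sym2 V))
    (S : Finset V) : Q p t A S ≤ 1 := Pr_le_one h0 h1 _ _

theorem Q_mono {p : ℝ} (h0 : 0 ≤ p) (h1 : p ≤ 1) (t : Set V) (A : Finset (Sym2 V))
    {S S' : Finset V} (h : S ⊆ S') : Q p t A S ≤ Q p t A S' :=
  Pr_mono h0 h1 fun _ _ ⟨v, hv, hr⟩ => ⟨v, hv, hr.mono (Subset.refl _) h⟩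

theorem Q_eq_one {p : ℝ} {t : Set V} {A : Finset (Sym2 V)} {S : Finset V}
    (h : ∃ v ∈ S, v ∈ t) : Q p t A S = 1 := by
  obtain ⟨v, hv, ht⟩ := h
  rw [← Pr_true p A]
  exact Pr_congr fun O _ => ⟨fun _ => trivial, fun _ => ⟨v, ht, Rch.base hv⟩⟩

theorem Q_eq_zero {p : ℝ} {t : Set V} {A : Finset (Sym2 V)} {S : Finset V}
    (h : ¬ ∃ v ∈ S, v ∈ t) (hE : Exh A S) : Q p t A S = 0 := by
  rw [← Pr_false p A]
  refine Pr_congr fun O hO => ⟨?_, fun h => h.elim⟩
  rintro ⟨v, hv, hr⟩
  exact h ⟨v, rch_exh hO hE hr, hv⟩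

theorem Fl_eq_zero {p : ℝ} {t : Set V} {A : Finset (Sym2 V)} {S R : Finset V} {k : ℕ}
    (h : ∃ v ∈ S, v ∈ t) : Fl p t A S R k = 0 := by
  obtain ⟨v, hv, ht⟩ := h
  rw [← Pr_false p A]
  exact Pr_congr fun O _ => ⟨fun h => h ⟨v, ht, RC.b0 hv⟩, fun h => h.elim⟩

theorem Fl_exh {p : ℝ} {t : Set V} {A : Finset (Sym2 V)} {S R : Finset V} {k : ℕ}
    (hE : Exh A S) : Fl p t A S R (k + 1) = Fl p t A (S ∪ R) ∅ k := by
  refine Pr_congr fun O hO => ?_
  simp only [Hit, rc_exh hO hE]

theorem Fl_le_one {p : ℝ} (h0 : 0 ≤ p) (h1 : p ≤ 1) (t : Set V) (A : Finset (Sym2 V))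
    (S R : Finset V) (k : ℕ) : Fl p t A S R k ≤ 1 := Pr_le_one h0 h1 _ _

theorem Fl_nonneg {p : ℝ} (h0 : 0 ≤ p) (h1 : p ≤ 1) (t : Set V) (A : Finset (Sym2 V))
    (S R : Finset V) (k : ℕ) : 0 ≤ Fl p t A S R k := Pr_nonneg h0 h1 _ _

/-- the numerical step -/
theorem num_step {q ψ ψ' : ℝ} (hψ : 0 < ψ) (hle : ψ ≤ ψ') (hq : q ≤ ψ) :
    1 - Real.log ψ' - q / ψ' ≤ 1 - Real.log ψ - q / ψ := by
  have hψ' : 0 < ψ' := hψ.trans_le hle
  have h1 : 1 - ψ / ψ' ≤ Real.log (ψ' / ψ) := by
    have := Real.one_sub_inv_le_log_of_pos (div_pos hψ' hψ)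
    rwa [inv_div] at this
  rw [Real.log_div hψ'.ne' hψ.ne'] at h1
  have h2 : q * (1 / ψ - 1 / ψ') ≤ ψ * (1 / ψ - 1 / ψ') := by
    refine mul_le_mul_of_nonneg_right hq ?_
    rw [sub_nonneg]
    exact one_div_le_one_div_of_le hψ hle
  have h3 : ψ * (1 / ψ - 1 / ψ') = 1 - ψ / ψ' := by
    field_simp
  have h4 : q * (1 / ψ - 1 / ψ') = q / ψ - q / ψ' := by ring
  linarith

/-- **Main inequality.** -/
theorem main_ineq {p : ℝ} (h0 : 0 ≤ p) (h1 : p ≤ 1) (t : Set V) :
    ∀ (A : Finset (Sym2 V)) (S R : Finset V) (N : ℕ), 0 < Q p t A (S ∪ R) →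
      ∑ k ∈ range N, Fl p t A S R k ≤
        1 - Real.log (Q p t A (S ∪ R)) - Q p t A S / Q p t A (S ∪ R) := by
  intro A
  induction hn : A.card using Nat.strong_induction_on generalizing A with
  | _ n ih =>
    -- the core: `S` meets `t`, or some edge of `A` leaves `S`
    have core : ∀ (S R : Finset V) (N : ℕ), 0 < Q p t A (S ∪ R) →
        ((∃ v ∈ S, v ∈ t) ∨ ¬ Exh A S) →
        ∑ k ∈ range N, Fl p t A S R k ≤
          1 - Real.log (Q p t A (S ∪ R)) - Q p t A S / Q p t A (S ∪ R) := by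
      intro S R N hpos hcase
      rcases hcase with ht | hE
      · have h2 : Q p t A S = 1 := Q_eq_one ht
        have h3 : Q p t A (S ∪ R) = 1 := by
          obtain ⟨v, hv, hvt⟩ := ht
          exact Q_eq_one ⟨v, mem_union_left _ hv, hvt⟩
        rw [sum_eq_zero fun k _ => Fl_eq_zero ht, h2, h3, Real.log_one]
        norm_num
      · unfold Exh at hE
        push Not at hE
        obtain ⟨a, ha, w, he, hw⟩ := hE
        set A' := A.erase s(a, w) with hA'
        have hcard : A'.card < n := by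
          rw [← hn]; exact card_erase_lt_of_mem he
        set ψ' := Q p t A' (insert w (S ∪ R)) with hψ'
        have haU : a ∈ S ∪ R := mem_union_left _ ha
        have hψ : Q p t A (S ∪ R) ≤ ψ' := by
          rw [Q_reveal haU he]
          have g1 := Q_mono h0 h1 t A' (subset_insert w (S ∪ R))
          have g2 : (1 - p) * Q p t A' (S ∪ R) ≤ (1 - p) * ψ' :=
            mul_le_mul_of_nonneg_left g1 (by linarith)
          have g3 : p * Q p t A' (insert w (S ∪ R)) = p * ψ' := rfl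
          linarith
        have hψ'0 : 0 < ψ' := hpos.trans_le hψ
        have u1 : insert w S ∪ R = insert w (S ∪ R) := insert_union w S R
        have u2 : S ∪ insert w R = insert w (S ∪ R) := union_insert w S R
        have ih1 := ih _ hcard A' rfl (insert w S) R N (by rw [u1]; exact hψ'0)
        have ih2 := ih _ hcard A' rfl S (insert w R) N (by rw [u2]; exact hψ'0)
        rw [u1, ← hψ'] at ih1
        rw [u2, ← hψ'] at ih2
        have hsum : ∑ k ∈ range N, Fl p t A S R k =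
            p * ∑ k ∈ range N, Fl p t A' (insert w S) R k +
              (1 - p) * ∑ k ∈ range N, Fl p t A' S (insert w R) k := by
          rw [mul_sum, mul_sum, ← sum_add_distrib]
          exact sum_congr rfl fun k _ => Fl_reveal ha he k
        have hq : Q p t A S = p * Q p t A' (insert w S) + (1 - p) * Q p t A' S := Q_reveal ha he
        have j1 := mul_le_mul_of_nonneg_left ih1 h0
        have j2 := mul_le_mul_of_nonneg_left ih2 (sub_nonneg.2 h1)
        have j3 : ∑ k ∈ range N, Fl p t A S R k ≤ 1 - Real.log ψ' - Q p t A S / ψ' := by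
          rw [hsum, hq]
          have : (p * Q p t A' (insert w S) + (1 - p) * Q p t A' S) / ψ' =
              p * (Q p t A' (insert w S) / ψ') + (1 - p) * (Q p t A' S / ψ') := by ring
          rw [this]
          linarith
        exact j3.trans (num_step hpos hψ (Q_mono h0 h1 t A subset_union_left))
    intro S R N hpos
    by_cases hcase : (∃ v ∈ S, v ∈ t) ∨ ¬ Exh A S
    · exact core S R N hpos hcase
    · push Not at hcase
      obtain ⟨hnt, hE⟩ := hcase
      have hq0 : Q p t A S = 0 := Q_eq_zero (by push Not; exact hnt) hE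
      have hU : (∃ v ∈ S ∪ R, v ∈ t) ∨ ¬ Exh A (S ∪ R) := by
        by_contra hc
        push Not at hc
        exact absurd (Q_eq_zero (p := p) (by push Not; exact hc.1) hc.2) hpos.ne'
      rcases N with _ | N
      · rw [range_zero, sum_empty, hq0, zero_div, sub_zero]
        have := Real.log_nonpos hpos.le (Q_le_one h0 h1 t A (S ∪ R))
        linarith
      · rw [sum_range_succ']
        have c := core (S ∪ R) ∅ N (by rwa [union_empty]) hU
        rw [union_empty, div_self hpos.ne'] at c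
        have e1 : ∑ k ∈ range N, Fl p t A S R (k + 1) = ∑ k ∈ range N, Fl p t A (S ∪ R) ∅ k :=
          sum_congr rfl fun k _ => Fl_exh hE
        rw [e1, hq0, zero_div, sub_zero]
        have := Fl_le_one h0 h1 t A S R 0
        linarith

/-- `E T ≤ - log P(T = 0)` -/
theorem expect_le {p : ℝ} (h0 : 0 ≤ p) (h1 : p ≤ 1) (t : Set V) (A : Finset (Sym2 V))
    (S : Finset V) (N : ℕ) (hq : 0 < Q p t A S) :
    ∑ k ∈ range N, Fl p t A S ∅ k ≤ - Real.log (Q p t A S) := by
  have := main_ineq h0 h1 t A S ∅ N (by rwa [union_empty])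
  rw [union_empty, div_self hq.ne'] at this
  linarith

end Pool.Agent.FPP38
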