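import Pool.Agent.FPP38.Crit

/-!
The finite computations as statements about the infinite product measure.
-/

set_option autoImplicit false
set_option linter.deprecated false

open Finset MeasureTheory
open scoped NNReal ENNReal

namespace Pool.Agent.FPP38

section General

variable {V : Type*} [DecidableEq V]

/-- the law of the states of the edges -/
noncomputable abbrev PB (V : Type*) (p : ℝ≥0) (hp : p ≤ 1) : Measure (Sym2 V → Bool) :=
  Measure.infinitePi (fun _ : Sym2 V => (PMF.bernoulli p hp).toMeasure)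

/-- the open edges of `A` -/
def opn (A : Finset (Sym2 V)) (ω : Sym2 V → Bool) : Finset (Sym2 V) := A.filter fun e => ω e = true

omit [DecidableEq V] in
theorem mem_opn {A : Finset (Sym2 V)} {ω : Sym2 V → Bool} {e : Sym2 V} :
    e ∈ opn A ω ↔ e ∈ A ∧ ω e = true := by rw [opn, mem_filter]

theorem opn_eq {A O : Finset (Sym2 V)} (hO : O ⊆ A) :
    {ω : Sym2 V → Bool | opn A ω = O} = Set.pi (A : Set (Sym2 V)) (fun e => {decide (e ∈ O)}) := by
  ext ω
  simp only [Set.mem_setOf_eq, Set.mem_pi, mem_coe, Set.mem_singleton_iff]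
  constructor
  · rintro rfl e he
    cases h : ω e <;> simp [mem_opn, he, h]
  · intro h
    ext e
    rw [mem_opn]
    constructor
    · rintro ⟨h1, h2⟩
      have := h e h1
      rw [h2] at this
      simpa using this.symm
    · intro h1
      have := h e (hO h1)
      exact ⟨hO h1, by rw [this]; simpa using h1⟩

theorem measurable_opn_eq {A O : Finset (Sym2 V)} (hO : O ⊆ A) :
    MeasurableSet {ω : Sym2 V → Bool | opn A ω = O} := by
  rw [opn_eq hO]
  exact MeasurableSet.pi A.countable_toSet fun e _ => measurableSet_singleton _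

theorem measure_opn_eq {p : ℝ≥0} (hp : p ≤ 1) {A O : Finset (Sym2 V)} (hO : O ⊆ A) :
    PB V p hp {ω | opn A ω = O} = ENNReal.ofReal (wt p A O) := by
  rw [opn_eq hO, PB, Measure.infinitePi_pi _ fun e _ => measurableSet_singleton _, wt,
    ENNReal.ofReal_prod_of_nonneg]
  · refine prod_congr rfl fun e _ => ?_
    rw [PMF.toMeasure_apply_singleton _ _ (measurableSet_singleton _), PMF.bernoulli_apply]
    by_cases h : e ∈ O
    · simp [h]
    · simp only [h, decide_false, cond_false, if_false]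
      rw [← ENNReal.ofReal_coe_nnreal, NNReal.coe_sub hp, NNReal.coe_one]
  · intro e _
    have h1 : (p : ℝ) ≤ 1 := by exact_mod_cast hp
    split_ifs
    · exact p.coe_nonneg
    · linarith

open Classical in
omit [DecidableEq V] in
theorem event_eq (A : Finset (Sym2 V)) (X : Finset (Sym2 V) → Prop) :
    {ω : Sym2 V → Bool | X (opn A ω)} =
      ⋃ O ∈ A.powerset.filter X, {ω : Sym2 V → Bool | opn A ω = O} := by
  ext ω
  simp only [Set.mem_setOf_eq, Set.mem_iUnion, mem_filter, mem_powerset, exists_prop]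
  constructor
  · intro h
    exact ⟨opn A ω, ⟨filter_subset _ _, h⟩, rfl⟩
  · rintro ⟨O, ⟨_, h2⟩, rfl⟩
    exact h2

theorem measurable_event (A : Finset (Sym2 V)) (X : Finset (Sym2 V) → Prop) :
    MeasurableSet {ω : Sym2 V → Bool | X (opn A ω)} := by
  classical
  rw [event_eq]
  refine Finset.measurableSet_biUnion _ fun O hO => ?_
  exact measurable_opn_eq (mem_powerset.1 (mem_filter.1 hO).1)

theorem measure_event {p : ℝ≥0} (hp : p ≤ 1) (A : Finset (Sym2 V)) (X : Finset (Sym2 V) → Prop) :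
    PB V p hp {ω | X (opn A ω)} = ENNReal.ofReal (Pr p A X) := by
  classical
  have h1 : (p : ℝ) ≤ 1 := by exact_mod_cast hp
  rw [event_eq, measure_biUnion_finset]
  · have : Pr p A X = ∑ O ∈ A.powerset.filter X, wt p A O := by
      unfold Pr
      rw [sum_filter]
      refine sum_congr rfl fun O _ => ?_
      by_cases h : X O <;> simp [h]
    rw [this, ENNReal.ofReal_sum_of_nonneg fun O _ => wt_nonneg p.coe_nonneg h1 _ _]
    exact sum_congr rfl fun O hO => measure_opn_eq hp (mem_powerset.1 (mem_filter.1 hO).1)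
  · intro O _ O' _ hne
    rw [Function.onFun, Set.disjoint_left]
    intro ω h1 h2
    exact hne (h1.symm.trans h2)
  · intro O hO
    exact measurable_opn_eq (mem_powerset.1 (mem_filter.1 hO).1)

theorem continuous_Pr (A : Finset (Sym2 V)) (X : Finset (Sym2 V) → Prop) :
    Continuous (fun p : ℝ => Pr p A X) := by
  classical
  unfold Pr
  refine continuous_finset_sum _ fun O _ => Continuous.mul ?_ continuous_const
  unfold wt
  refine continuous_finset_prod _ fun e _ => ?_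
  split_ifs
  · exact continuous_id
  · exact continuous_const.sub continuous_id

end General

/-! ### The lattice -/

variable {d : ℕ}

/-- the lattice graph of the frozen statement -/
def Z (d : ℕ) : SimpleGraph (Fin d → ℤ) :=
  SimpleGraph.fromRel (fun x y : Fin d → ℤ => ∑ i, |x i - y i| = 1)

theorem Z_adj {x y : Fin d → ℤ} : (Z d).Adj x y ↔ Nb x y := by
  rw [Z, SimpleGraph.fromRel_adj]
  constructor
  · rintro ⟨_, h | h⟩
    · exact h
    · exact Nb.symm h
  · intro h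
    refine ⟨?_, Or.inl h⟩
    rintro rfl
    unfold Nb at h
    simp at h

/-- the percolation event -/
def Perc (d : ℕ) : Set (Sym2 (Fin d → ℤ) → Bool) :=
  {ω | ∀ n : ℕ, ∃ y : Fin d → ℤ, (∃ i, |y i| = (n : ℤ)) ∧ (∀ i, |y i| ≤ (n : ℤ)) ∧
    ∃ w : (Z d).Walk 0 y, ∀ e ∈ w.edges, ω e = true}

theorem walk_to_rch {ω : Sym2 (Fin d → ℤ) → Bool} {N : ℕ} {x y : Fin d → ℤ} (w : (Z d).Walk x y)
    (hw : ∀ e ∈ w.edges, ω e = true) (hx : x ∈ box (0 : Fin d → ℤ) N)
    (hy : y ∈ sph (0 : Fin d → ℤ) N) :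
    ∃ v ∈ sph (0 : Fin d → ℤ) N, Rch (opn (EB 0 N) ω) {x} v := by
  induction w with
  | nil => exact ⟨_, hy, Rch.base (mem_singleton_self _)⟩
  | @cons x x' y h w ih =>
    by_cases hxs : x ∈ sph (0 : Fin d → ℤ) N
    · exact ⟨x, hxs, Rch.base (mem_singleton_self _)⟩
    · have hnb := Z_adj.1 h
      have hx' := mem_box_of_nb hx hxs hnb
      rw [SimpleGraph.Walk.edges_cons] at hw
      obtain ⟨v, hv, hr⟩ := ih (fun e he => hw e (List.mem_cons_of_mem _ he)) hx' hy
      refine ⟨v, hv, Rch.trans (S' := {x'}) ?_ hr⟩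
      intro u hu
      rw [mem_singleton] at hu
      subst hu
      refine Rch.step (Rch.base (mem_singleton_self _)) (mem_opn.2 ⟨?_, hw _ List.mem_cons_self⟩)
      exact mem_EB.2 ⟨hx, hx', hnb⟩

theorem perc_sub (N : ℕ) : Perc d ⊆
    {ω | ∃ v ∈ (sph (0 : Fin d → ℤ) N : Set (Fin d → ℤ)), Rch (opn (EB 0 N) ω) {0} v} := by
  intro ω hω
  obtain ⟨y, h1, h2, w, hw⟩ := hω N
  refine walk_to_rch w hw (self_mem_box _ _) (mem_sph.2 ⟨?_, ?_⟩)
  · simpa using h2
  · simpa using h1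

theorem perc_le_arm {p : ℝ≥0} (hp : p ≤ 1) (N : ℕ) :
    PB (Fin d → ℤ) p hp (Perc d) ≤ ENNReal.ofReal (arm p d N) :=
  (measure_mono (perc_sub N)).trans (measure_event hp (EB 0 N)
    (fun O => ∃ v ∈ (sph (0 : Fin d → ℤ) N : Set (Fin d → ℤ)), Rch O {0} v)).le

/-- if the expected number of exits of a box is smaller than one there is no percolation -/
theorem perc_zero {p : ℝ≥0} (hp : p ≤ 1) {n : ℕ} (hn : 1 ≤ n) (hm : mm p d n < 1) :
    PB (Fin d → ℤ) p hp (Perc d) = 0 := by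
  have h1 : (p : ℝ) ≤ 1 := by exact_mod_cast hp
  have hlim : Filter.Tendsto (fun k : ℕ => ENNReal.ofReal (mm p d n ^ k)) Filter.atTop (nhds 0) := by
    have := tendsto_pow_atTop_nhds_zero_of_lt_one (mm_nonneg p.coe_nonneg h1 (d := d) n) hm
    have h2 := ENNReal.tendsto_ofReal this
    rwa [ENNReal.ofReal_zero] at h2
  refine le_antisymm (ge_of_tendsto' hlim fun k => ?_) zero_le
  refine (perc_le_arm hp (n * (k + 1))).trans (ENNReal.ofReal_le_ofReal ?_)
  exact arm_pow_le p.coe_nonneg h1 hn k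

theorem continuous_mm (n : ℕ) : Continuous (fun p : ℝ => mm p d n) :=
  continuous_finset_sum _ fun _ _ => continuous_Pr _ _

/-- at the critical point the expected number of exits is at least one -/
theorem one_le_mm {pc : ℝ≥0} (hpc : pc = sInf {p : ℝ≥0 | ∃ hp : p ≤ 1, 0 < PB (Fin d → ℤ) p hp (Perc d)})
    (hne : {p : ℝ≥0 | ∃ hp : p ≤ 1, 0 < PB (Fin d → ℤ) p hp (Perc d)}.Nonempty) {n : ℕ} (hn : 1 ≤ n) :
    1 ≤ mm pc d n := by
  by_contra hlt
  push Not at hlt
  have hcont : Continuous (fun p : ℝ≥0 => mm (p : ℝ) d n) :=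
    (continuous_mm n).comp NNReal.continuous_coe
  have hopen : IsOpen {p : ℝ≥0 | mm (p : ℝ) d n < 1} := isOpen_lt hcont continuous_const
  have hmem : pc ∈ closure {p : ℝ≥0 | ∃ hp : p ≤ 1, 0 < PB (Fin d → ℤ) p hp (Perc d)} := by
    rw [hpc]
    exact csInf_mem_closure hne (OrderBot.bddBelow _)
  obtain ⟨p, hp1, hp2, hp3⟩ := mem_closure_iff.1 hmem _ hopen hlt
  exact absurd (perc_zero hp2 hn hp1) hp3.ne'

/-! ### Percolation at `p = 1` -/

theorem nb_single (i : Fin d) (m : ℤ) :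
    Nb (Pi.single i m : Fin d → ℤ) (Pi.single i (m + 1)) := by
  unfold Nb
  rw [sum_eq_single i]
  · simp
  · intro j _ hj
    simp [hj]
  · intro h
    exact absurd (mem_univ i) h

theorem walk_single (i : Fin d) (n : ℕ) :
    Nonempty ((Z d).Walk 0 (Pi.single i (n : ℤ) : Fin d → ℤ)) := by
  induction n with
  | zero => simpa using ⟨SimpleGraph.Walk.nil⟩
  | succ n ih =>
    obtain ⟨w⟩ := ih
    refine ⟨w.concat ?_⟩
    have := nb_single (d := d) i (n : ℤ)
    push_cast
    exact Z_adj.2 this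

theorem perc_one (i : Fin d) : 0 < PB (Fin d → ℤ) 1 le_rfl (Perc d) := by
  have h1 : ∀ e : Sym2 (Fin d → ℤ), ∀ᵐ ω ∂(PB (Fin d → ℤ) 1 le_rfl), ω e = true := by
    intro e
    rw [ae_iff]
    have h2 : {ω : Sym2 (Fin d → ℤ) → Bool | ¬ ω e = true} =
        Set.pi (({e} : Finset (Sym2 (Fin d → ℤ))) : Set (Sym2 (Fin d → ℤ))) (fun _ => {false}) := by
      ext ω
      simp
    rw [h2, PB, Measure.infinitePi_pi _ fun e _ => measurableSet_singleton _, prod_singleton,
      PMF.toMeasure_apply_singleton _ _ (measurableSet_singleton _), PMF.bernoulli_apply]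
    simp
  have h3 : ∀ᵐ ω ∂(PB (Fin d → ℤ) 1 le_rfl), ∀ e, ω e = true := ae_all_iff.2 h1
  have h4 : ∀ᵐ ω ∂(PB (Fin d → ℤ) 1 le_rfl), ω ∈ Perc d := by
    filter_upwards [h3] with ω hω n
    obtain ⟨w⟩ := walk_single (d := d) i n
    refine ⟨Pi.single i (n : ℤ), ⟨i, by simp⟩, fun j => ?_, w, fun e _ => hω e⟩
    by_cases hj : j = i
    · subst hj; simp
    · simp [hj]
  rw [pos_iff_ne_zero]
  intro h0
  have h5 : PB (Fin d → ℤ) 1 le_rfl (Perc d)ᶜ = 0 := h4
  have h6 : PB (Fin d → ℤ) 1 le_rfl Set.univ = 0 := by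
    rw [← Set.union_compl_self (Perc d)]
    exact le_antisymm ((measure_union_le _ _).trans (by rw [h0, h5, add_zero])) zero_le
  rw [measure_univ] at h6
  exact one_ne_zero h6

/-! ### The passage time -/

/-- the passage time of the frozen statement -/
noncomputable def TT (d n : ℕ) (ω : Sym2 (Fin d → ℤ) → Bool) : ℕ :=
  sInf {k : ℕ | ∃ y : Fin d → ℤ, (∃ i, |y i| = (n : ℤ)) ∧ (∀ i, |y i| ≤ (n : ℤ)) ∧
    ∃ w : (Z d).Walk 0 y, (w.edges.map (fun e => if ω e then (0 : ℕ) else 1)).sum = k}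

theorem rc_to_walk {ω : Sym2 (Fin d → ℤ) → Bool} {n : ℕ} {k : ℕ} {v : Fin d → ℤ}
    (h : RC (EB 0 n) (opn (EB 0 n) ω) {0} ∅ k v) :
    ∃ w : (Z d).Walk 0 v, (w.edges.map (fun e => if ω e then (0 : ℕ) else 1)).sum ≤ k := by
  induction h with
  | b0 h =>
    rw [mem_singleton] at h
    subst h
    exact ⟨SimpleGraph.Walk.nil, by simp⟩
  | b1 h => exact absurd h (notMem_empty _)
  | @op k u v _ hs ih =>
    obtain ⟨w, hw⟩ := ih
    rw [mem_opn] at hs
    refine ⟨w.concat (Z_adj.2 (mem_EB.1 hs.1).2.2), ?_⟩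
    rw [SimpleGraph.Walk.edges_concat, List.concat_eq_append, List.map_append, List.sum_append]
    simpa [hs.2] using hw
  | @cl k u v _ hs ih =>
    obtain ⟨w, hw⟩ := ih
    refine ⟨w.concat (Z_adj.2 (mem_EB.1 hs).2.2), ?_⟩
    rw [SimpleGraph.Walk.edges_concat, List.concat_eq_append, List.map_append, List.sum_append]
    refine add_le_add hw ?_
    simp only [List.map_cons, List.map_nil, List.sum_cons, List.sum_nil, add_zero]
    split_ifs <;> norm_num

theorem hit_le {ω : Sym2 (Fin d → ℤ) → Bool} {n k : ℕ}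
    (h : Hit (sph (0 : Fin d → ℤ) n : Set (Fin d → ℤ)) (EB 0 n) (opn (EB 0 n) ω) {0} ∅ k) :
    TT d n ω ≤ k := by
  obtain ⟨v, hv, hr⟩ := h
  obtain ⟨w, hw⟩ := rc_to_walk hr
  rw [mem_coe, mem_sph] at hv
  refine (Nat.sInf_le ?_).trans hw
  refine ⟨v, ?_, ?_, w, rfl⟩
  · simpa using hv.2
  · simpa using hv.1

theorem cast_le_tsum (m : ℕ) (P : ℕ → Prop) [DecidablePred P] (h : ∀ k < m, P k) :
    (m : ℝ≥0∞) ≤ ∑' k, if P k then (1 : ℝ≥0∞) else 0 := by
  have h1 : (m : ℝ≥0∞) = ∑ k ∈ range m, if P k then (1 : ℝ≥0∞) else 0 := by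
    rw [sum_congr rfl fun k hk => if_pos (h k (mem_range.1 hk))]
    simp
  rw [h1]
  exact ENNReal.sum_le_tsum _

theorem lintegral_TT {p : ℝ≥0} (hp : p ≤ 1) (n : ℕ) (harm : 0 < arm p d n) :
    ∫⁻ ω, (TT d n ω : ℝ≥0∞) ∂(PB (Fin d → ℤ) p hp) ≤ ENNReal.ofReal (- Real.log (arm p d n)) := by
  classical
  have h1 : (p : ℝ) ≤ 1 := by exact_mod_cast hp
  set X : ℕ → Finset (Sym2 (Fin d → ℤ)) → Prop := fun k O =>
    ¬ Hit (sph (0 : Fin d → ℤ) n : Set (Fin d → ℤ)) (EB 0 n) O {0} ∅ k with hX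
  have hle : ∀ ω, (TT d n ω : ℝ≥0∞) ≤ ∑' k, if X k (opn (EB 0 n) ω) then (1 : ℝ≥0∞) else 0 := by
    intro ω
    refine cast_le_tsum _ _ fun k hk hh => ?_
    exact absurd (hit_le hh) (not_le.2 hk)
  refine (lintegral_mono hle).trans ?_
  have hind : ∀ k, (fun ω : Sym2 (Fin d → ℤ) → Bool =>
      if X k (opn (EB 0 n) ω) then (1 : ℝ≥0∞) else 0) =
      Set.indicator {ω | X k (opn (EB 0 n) ω)} 1 := by
    intro k
    ext ω
    simp [Set.indicator_apply]
  rw [lintegral_tsum]
  · refine ENNReal.tsum_le_of_sum_range_le fun N => ?_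
    have h2 : ∀ k, ∫⁻ ω, (if X k (opn (EB 0 n) ω) then (1 : ℝ≥0∞) else 0) ∂(PB (Fin d → ℤ) p hp) =
        ENNReal.ofReal (Fl p (sph (0 : Fin d → ℤ) n : Set (Fin d → ℤ)) (EB 0 n) {0} ∅ k) := by
      intro k
      rw [hind k, lintegral_indicator_one (measurable_event _ _), measure_event hp]
      rfl
    rw [sum_congr rfl fun k _ => h2 k, ← ENNReal.ofReal_sum_of_nonneg]
    · exact ENNReal.ofReal_le_ofReal (expect_le p.coe_nonneg h1 _ _ _ N harm)
    · intro k _
      exact Fl_nonneg p.coe_nonneg h1 _ _ _ _ _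
  · intro k
    rw [hind k]
    exact (measurable_one.indicator (measurable_event _ _)).aemeasurable

end Pool.Agent.FPP38
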